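import Pool.Agent.H72.EM.Basic

/-!
# Row EC of the board emc_modules
-/

set_option autoImplicit false

open Finset Pool.Agent.H72.EM

namespace Pool.Agent.H36.EMC

theorem rev {κ m : ℕ} {c : Ix κ → Ix κ → ℕ} (h3 : IsPG (ft c : Dt (Vt κ m) → Dt (Vt κ m)))
    (hs : ∀ x : Dt (Vt κ m), fr c (ft c x) = fr c x) {v w : Vt κ m} {b : Bool}
    (h : ∃ a, (ft c (w, a)).1 = v ∧ fr c (w, a) = b) :
    ∃ a, (ft c (v, a)).1 = w ∧ fr c (v, a) = b := by
  obtain ⟨a, ha, hb⟩ := h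
  refine ⟨(ft c (w, a)).2, ?_, ?_⟩
  · have e : (v, (ft c (w, a)).2) = ft c (w, a) := Prod.ext ha.symm rfl
    rw [e, h3.inv]
  · have e : (v, (ft c (w, a)).2) = ft c (w, a) := Prod.ext ha.symm rfl
    rw [e, hs]
    exact hb

theorem pf_EC (h1 : T_D1) (h2 : T_D2) (h3 : T_TF) : T_EC := by
  classical
  intro κ m c hc v w
  obtain ⟨hp, -, hs⟩ := h3 κ m c hc
  have d1 := h1 κ m c hc v
  have hR : (∃ a, (ft c (v, a)).1 = w ∧ fr c (v, a) = true) ↔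
      (aR (m + 1) (nat c) (ci v) (cp v) (cs v) (cr v) (ci w) (cp w) (cs w) (cr w) ∨
      aR (m + 1) (nat c) (ci w) (cp w) (cs w) (cr w) (ci v) (cp v) (cs v) (cr v)) := by
    constructor
    · rintro ⟨a, ha, hb⟩
      exact (d1 a w ha).1 hb
    · rintro (h | h)
      · exact (h2 κ m c hc v w).1 h
      · exact rev hp hs ((h2 κ m c hc w v).1 h)
  have hB : (∃ a, (ft c (v, a)).1 = w ∧ fr c (v, a) = false) ↔
      (aB (2 * κ + 2) (m + 1) (nat c) (ci v) (cp v) (cs v) (cr v) (ci w) (cp w) (cs w) (cr w) ∨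
      aB (2 * κ + 2) (m + 1) (nat c) (ci w) (cp w) (cs w) (cr w) (ci v) (cp v) (cs v) (cr v)) := by
    constructor
    · rintro ⟨a, ha, hb⟩
      exact (d1 a w ha).2 hb
    · rintro (h | h)
      · exact (h2 κ m c hc v w).2 h
      · exact rev hp hs ((h2 κ m c hc w v).2 h)
  unfold aE fe
  rw [← hR, ← hB]
  by_cases c1 : ∃ a, (ft c (v, a)).1 = w ∧ fr c (v, a) = true
  · rw [if_pos c1]
    exact Or.inl ⟨rfl, c1⟩
  rw [if_neg c1]
  by_cases c2 : ∃ a, (ft c (v, a)).1 = w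
  · rw [if_pos c2]
    obtain ⟨a, ha⟩ := c2
    refine Or.inr (Or.inl ⟨rfl, c1, a, ha, ?_⟩)
    cases hb : fr c (v, a) with
    | false => rfl
    | true => exact absurd ⟨a, ha, hb⟩ c1
  · rw [if_neg c2]
    refine Or.inr (Or.inr ⟨rfl, c1, ?_⟩)
    rintro ⟨a, ha, -⟩
    exact c2 ⟨a, ha⟩

end Pool.Agent.H36.EMC
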